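import Mathlib
import Pool.Agent.H16.TLH

set_option autoImplicit false

namespace Pool.Agent.Results.MP_555fce_lc.Dense

open Pool.Agent.H16.TLH

/-- The tolerant learning hierarchy is dense, for every indexing `W` of sets of naturals, in
particular for the domains of a standard enumeration of the partially computable functions. -/
theorem result (W : ℕ → Set ℕ) (E F : ℕ → ℕ → Prop) (hE : Tol W E) (hF : Tol W F)
    (h : LearnLt W E F) : ∃ G, Tol W G ∧ LearnLt W E G ∧ LearnLt W G F :=
  dense hE hF h

end Pool.Agent.Results.MP_555fce_lc.Dense
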